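import Mathlib
import Pool.Agent.Hhelper85.TateDefs
import Pool.Agent.Hhelper78.CM.Defs
import Pool.Agent.Hhelper78.CM.Main

/-!
# Tate's Birch and Swinnerton-Dyer conjecture for `y² = x³ + t` with `r` marked points over `ℚ`
-/

namespace Pool.Agent.Results.MP_9faec4_nt.CMFamily

open Pool.Agent.TateBSD

/-- **Tate's conjecture for the curve `y² = x³ + t` with `r` marked points over `ℚ`.** -/
theorem result (N : ℕ) (hN : N ≠ 0) (h6 : 6 ∣ N) (r : ℕ) :
    IsDomain (sextic (Localization.Away (N : ℤ)) r).R ∧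
    (∃ Φ : ℂ → ℂ, MeromorphicOn Φ {s : ℂ | (r : ℝ) + 1 < s.re} ∧
      (∀ s : ℂ, (r : ℝ) + 5 / 2 < s.re →
        HasProd (fun m : MaximalSpectrum (sextic (Localization.Away (N : ℤ)) r).R =>
          localFactor (sextic (Localization.Away (N : ℤ)) r).curve m s) (Φ s)) ∧
      meromorphicOrderAt Φ ((r : ℂ) + 2) = r) ∧
    ∀ (K : Type) [Field K] [DecidableEq K]
      [Algebra (sextic (Localization.Away (N : ℤ)) r).R K]
      [IsFractionRing (sextic (Localization.Away (N : ℤ)) r).R K],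
      Module.rank ℤ ((sextic (Localization.Away (N : ℤ)) r).curve.map
        (algebraMap (sextic (Localization.Away (N : ℤ)) r).R K)).toAffine.Point = r := by
  have hR := Hhelper78.CM.sextic_ZN hN h6 r
  refine ⟨hR.dom, ⟨Hhelper78.CM.PhiC N r, fun s hs => Hhelper78.CM.meromorphicAt_PhiC hN h6 r hs,
    fun s hs => Hhelper78.CM.hasProd_PhiC hN h6 r hs, Hhelper78.CM.order_PhiC hN h6 r⟩, ?_⟩
  intro K _ _ _ _
  rw [Hhelper85.curve_map]
  exact hR.rank K

end Pool.Agent.Results.MP_9faec4_nt.CMFamily
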